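import Pool.Agent.MP_82452b_an.H8.Base

/-!
# Cyclic projections, the conditional expectation and averaging over unitaries
-/

namespace Pool.Agent.MP_82452b_an.H78

open Filter Topology Pool.Agent.MP_755d6b_an.H98 Pool.Agent.MP_82452b_an.H8
open scoped InnerProductSpace

variable {H : Type} [NormedAddCommGroup H] [InnerProductSpace ℂ H] [CompleteSpace H]

section Cyc

variable {P : VonNeumannAlgebra H} {Ω : H}

theorem cyc_star : star (cycProj P Ω) = cycProj P Ω := (isSelfAdjoint_starProjection _).star_eq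

theorem cyc_mul : cycProj P Ω * cycProj P Ω = cycProj P Ω :=
  (Submodule.isIdempotentElem_starProjection _).eq

theorem cyc_norm : ‖cycProj P Ω‖ ≤ 1 := Submodule.starProjection_norm_le _

theorem cyc_apply {p : H →L[ℂ] H} (hp : p ∈ P) : cycProj P Ω (p Ω) = p Ω :=
  Submodule.starProjection_eq_self_iff.2
    (Submodule.le_topologicalClosure _ (Submodule.subset_span ⟨p, hp, rfl⟩))

theorem cyc_one : cycProj P Ω Ω = Ω := cyc_apply (one_mem P)

theorem cyc_mem_closure (ξ : H) : cycProj P Ω ξ ∈ closure {η | ∃ x ∈ P, x Ω = η} := by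
  let V : Submodule ℂ H :=
    { carrier := {η | ∃ x ∈ P, x Ω = η}
      add_mem' := fun ⟨x, hx, hx'⟩ ⟨y, hy, hy'⟩ => ⟨x + y, add_mem hx hy, by rw [← hx', ← hy']; rfl⟩
      zero_mem' := ⟨0, zero_mem _, rfl⟩
      smul_mem' := fun c _ ⟨x, hx, hx'⟩ => ⟨c • x, smul_mem_vN c hx, by rw [← hx']; rfl⟩ }
  have h1 : Submodule.span ℂ {η | ∃ x ∈ P, x Ω = η} = V := Submodule.span_eq V
  have h2 := Submodule.starProjection_apply_mem
    (Submodule.span ℂ {η | ∃ x ∈ P, x Ω = η}).topologicalClosure ξ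
  have h3 : cycProj P Ω ξ ∈ closure
      ((Submodule.span ℂ {η | ∃ x ∈ P, x Ω = η} : Submodule ℂ H) : Set H) := h2
  rwa [h1] at h3

theorem cyc_ext {A B : H →L[ℂ] H} (h : ∀ p ∈ P, A (p Ω) = B (p Ω)) :
    A * cycProj P Ω = B * cycProj P Ω := by
  ext ξ
  refine closure_minimal (t := {η | A η = B η}) ?_
    (isClosed_eq A.continuous B.continuous) (cyc_mem_closure (P := P) (Ω := Ω) ξ)
  rintro _ ⟨p, hp, rfl⟩
  exact h p hp

theorem cyc_comm {T : H →L[ℂ] H} (h1 : ∀ p ∈ P, ∃ q ∈ P, T (p Ω) = q Ω)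
    (h2 : ∀ p ∈ P, ∃ q ∈ P, (star T) (p Ω) = q Ω) : cycProj P Ω * T = T * cycProj P Ω := by
  have key : ∀ A : H →L[ℂ] H, (∀ p ∈ P, ∃ q ∈ P, A (p Ω) = q Ω) →
      cycProj P Ω * A * cycProj P Ω = A * cycProj P Ω := fun A hA => cyc_ext fun p hp => by
    obtain ⟨q, hq, e⟩ := hA p hp
    rw [mul_apply_eq_comp, e, cyc_apply hq]
  have h3 := congrArg star (key _ h2)
  simp only [star_mul, star_star, cyc_star, ← mul_assoc] at h3
  rw [← h3, key _ h1]

theorem cyc_comm_mem {p : H →L[ℂ] H} (hp : p ∈ P) : cycProj P Ω * p = p * cycProj P Ω :=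
  cyc_comm (fun q hq => ⟨p * q, mul_mem hp hq, rfl⟩)
    fun q hq => ⟨star p * q, mul_mem (star_mem hp) hq, rfl⟩

theorem cyc_mem_commutant : cycProj P Ω ∈ P.commutant :=
  VonNeumannAlgebra.mem_commutant_iff.2 fun _ hp => (cyc_comm_mem hp).symm

theorem cyc_pyth {p : H →L[ℂ] H} (hp : p ∈ P) (ξ : H) :
    ‖p Ω - ξ‖ ^ 2 = ‖p Ω - cycProj P Ω ξ‖ ^ 2 + ‖cycProj P Ω ξ - ξ‖ ^ 2 := by
  have h1 : ⟪p Ω - cycProj P Ω ξ, cycProj P Ω ξ - ξ⟫_ℂ = 0 := by
    have e1 : p Ω - cycProj P Ω ξ = (star (cycProj P Ω)) (p Ω - ξ) := by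
      rw [cyc_star, map_sub, cyc_apply hp]
    rw [e1, inner_star_apply, map_sub, ← mul_apply_eq_comp, cyc_mul, sub_self, inner_zero_right]
  have h2 := norm_add_sq_eq_norm_sq_add_norm_sq_of_inner_eq_zero _ _ h1
  rw [sub_add_sub_cancel] at h2
  simpa only [sq] using h2

end Cyc

variable {M P : VonNeumannAlgebra H} {Ω : H}

/-- Cutting a self-adjoint element off at the level one does not increase the distance from a
contraction. -/
theorem exists_clip (h : IsSF M Ω) (hP : ∀ x ∈ P, x ∈ M) {p x : H →L[ℂ] H} (hp : p ∈ P)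
    (hs : IsSelfAdjoint p) (hx : x ∈ M) (hx1 : ‖x‖ ≤ 1) :
    ∃ c ∈ P, ‖c‖ ≤ 1 ∧ ‖c Ω - x Ω‖ ≤ ‖p Ω - x Ω‖ := by
  have hmem : ∀ f : ℝ → ℝ, cfc f p ∈ P := fun f =>
    mem_vN_of_commute hp fun _ hy => hy.cfc_real f
  have hsa : ∀ f : ℝ → ℝ, star (cfc f p) = cfc f p := fun f =>
    (cfc_predicate (R := ℝ) f p : IsSelfAdjoint _).star_eq
  let f : ℝ → ℝ := fun t => max (-1) (min 1 t)
  let g : ℝ → ℝ := fun t => √(t - 1)
  let k : ℝ → ℝ := fun t => √(-t - 1)
  have hf : Continuous f := by fun_prop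
  have hg : Continuous g := by fun_prop
  have hk : Continuous k := by fun_prop
  have e1 : p - cfc f p = cfc g p * cfc g p - cfc k p * cfc k p := by
    rw [← cfc_mul g g p, ← cfc_mul k k p, ← cfc_sub (fun t => g t * g t) (fun t => k t * k t) p]
    conv_lhs => enter [1]; rw [← cfc_id' ℝ p]
    rw [← cfc_sub (fun t => t) f p]
    refine cfc_congr fun t _ => ?_
    simp only [f, g, k]
    rcases le_total t 1 with h1 | h1
    · rw [Real.sqrt_eq_zero_of_nonpos (by linarith : t - 1 ≤ 0), min_eq_right h1]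
      rcases le_total (-1) t with h2 | h2
      · rw [Real.sqrt_eq_zero_of_nonpos (by linarith : -t - 1 ≤ 0), max_eq_right h2]; ring
      · rw [Real.mul_self_sqrt (by linarith), max_eq_left h2]; ring
    · rw [Real.mul_self_sqrt (by linarith), Real.sqrt_eq_zero_of_nonpos (by linarith : -t - 1 ≤ 0),
        min_eq_left h1, max_eq_right (by norm_num)]
      ring
  have e2 : cfc g p * cfc f p = cfc g p := by
    rw [← cfc_mul g f p]
    refine cfc_congr fun t _ => ?_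
    simp only [f, g]
    rcases le_total t 1 with h1 | h1
    · rw [Real.sqrt_eq_zero_of_nonpos (by linarith : t - 1 ≤ 0), zero_mul]
    · rw [min_eq_left h1, max_eq_right (by norm_num), mul_one]
  have e3 : cfc k p * cfc f p = -cfc k p := by
    rw [← cfc_mul k f p, ← cfc_neg k p]
    refine cfc_congr fun t _ => ?_
    simp only [f, k]
    rcases le_total (-1) t with h1 | h1
    · rw [Real.sqrt_eq_zero_of_nonpos (by linarith : -t - 1 ≤ 0), zero_mul, neg_zero]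
    · rw [min_eq_right (by linarith), max_eq_left h1, mul_neg, mul_one]
  have hn : ‖cfc f p‖ ≤ 1 := norm_cfc_le zero_le_one fun t _ => by
    simp only [f, Real.norm_eq_abs, abs_le]
    exact ⟨le_max_left _ _, max_le (by norm_num) (min_le_left _ _)⟩
  refine ⟨cfc f p, hmem f, hn, ?_⟩
  have key : ∀ s ∈ M, star s = s → ‖⟪(s * s) Ω, x Ω⟫_ℂ‖ ≤ ‖s Ω‖ ^ 2 := by
    intro s hs hss
    have a1 : ⟪(s * s) Ω, x Ω⟫_ℂ = ⟪s Ω, x (s Ω)⟫_ℂ := by
      have b1 := h.tv.tr s hs (s * x) (mul_mem hs hx)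
      rw [mul_apply_eq_comp, ← hss, inner_star_apply, inner_star_apply, inner_star_apply, hss]
      exact b1
    rw [a1]
    refine (norm_inner_le_norm _ _).trans ?_
    have a2 := (x.le_opNorm (s Ω)).trans (mul_le_of_le_one_left (norm_nonneg _) hx1)
    rw [sq]
    exact mul_le_mul_of_nonneg_left a2 (norm_nonneg _)
  have g1 := key _ (hP _ (hmem g)) (hsa g)
  have k1 := key _ (hP _ (hmem k)) (hsa k)
  have g3 : ⟪(cfc g p * cfc g p) Ω, cfc f p Ω⟫_ℂ = (‖cfc g p Ω‖ ^ 2 : ℝ) := by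
    rw [mul_apply_eq_comp, ← hsa g, inner_star_apply, hsa g, ← mul_apply_eq_comp, e2,
      inner_self_eq_norm_sq_to_K]
    norm_cast
  have k3 : ⟪(cfc k p * cfc k p) Ω, cfc f p Ω⟫_ℂ = -(‖cfc k p Ω‖ ^ 2 : ℝ) := by
    rw [mul_apply_eq_comp, ← hsa k, inner_star_apply, hsa k, ← mul_apply_eq_comp, e3,
      neg_apply, inner_neg_right, inner_self_eq_norm_sq_to_K]
    norm_cast
  have h1 : 0 ≤ (⟪(p - cfc f p) Ω, cfc f p Ω - x Ω⟫_ℂ).re := by
    rw [e1, sub_apply, inner_sub_left, inner_sub_right, inner_sub_right, g3, k3]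
    simp only [Complex.sub_re, Complex.neg_re, Complex.ofReal_re]
    have a1 := (Complex.re_le_norm _).trans g1
    have a2 := (neg_le_abs _).trans ((Complex.abs_re_le_norm _).trans k1)
    linarith
  have h2 := norm_add_sq (𝕜 := ℂ) ((p - cfc f p) Ω) (cfc f p Ω - x Ω)
  rw [sub_apply, sub_add_sub_cancel, RCLike.re_to_complex] at h2
  rw [sub_apply] at h1
  apply le_of_sq_le_sq _ (norm_nonneg _)
  nlinarith [sq_nonneg ‖p Ω - cfc f p Ω‖]

theorem exists_cond_sa (h : IsSF M Ω) (hP : ∀ x ∈ P, x ∈ M) {x : H →L[ℂ] H} (hx : x ∈ M)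
    (hs : star x = x) (hx1 : ‖x‖ ≤ 1) : ∃ y ∈ P, y Ω = cycProj P Ω (x Ω) := by
  obtain ⟨ζ, hζ, hlim⟩ := mem_closure_iff_seq_limit.1 (cyc_mem_closure (P := P) (Ω := Ω) (x Ω))
  choose q hq hq' using hζ
  have hc : ∀ n, ∃ c ∈ P, ‖c‖ ≤ 1 ∧ ‖c Ω - cycProj P Ω (x Ω)‖ ≤ ‖ζ n - cycProj P Ω (x Ω)‖ := by
    intro n
    have hm : (1 / 2 : ℂ) • (q n + star (q n)) ∈ P :=
      smul_mem_vN _ (add_mem (hq n) (star_mem (hq n)))
    have hsa : IsSelfAdjoint ((1 / 2 : ℂ) • (q n + star (q n))) := by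
      show star _ = _
      rw [star_smul, star_add, star_star, add_comm]
      simp
    obtain ⟨c, hc, hc1, hc2⟩ := exists_clip h hP hm hsa hx hx1
    refine ⟨c, hc, hc1, ?_⟩
    have a1 := h.tv.norm_star (sub_mem (hP _ (hq n)) hx)
    rw [star_sub, hs] at a1
    have a2 : ((1 / 2 : ℂ) • (q n + star (q n))) Ω - x Ω =
        (1 / 2 : ℂ) • ((q n - x) Ω + (star (q n) - x) Ω) := by
      simp only [smul_apply, add_apply, sub_apply]
      module
    have a3 : ‖c Ω - x Ω‖ ≤ ‖q n Ω - x Ω‖ := by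
      refine hc2.trans ?_
      rw [a2, norm_smul]
      have b1 := norm_add_le ((q n - x) Ω) ((star (q n) - x) Ω)
      have b2 : ‖(1 / 2 : ℂ)‖ = 1 / 2 := by simp
      rw [b2, ← sub_apply]
      linarith
    have a4 := pow_le_pow_left₀ (norm_nonneg _) a3 2
    rw [cyc_pyth hc, cyc_pyth (hq n), hq' n] at a4
    exact le_of_sq_le_sq (by linarith) (norm_nonneg _)
  choose c hc hc1 hc2 using hc
  have h1 : Tendsto (fun n => c n Ω) atTop (𝓝 (cycProj P Ω (x Ω))) := by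
    rw [tendsto_iff_norm_sub_tendsto_zero] at hlim ⊢
    exact squeeze_zero (fun _ => norm_nonneg _) hc2 hlim
  obtain ⟨y, hy, -, hy', -⟩ := h.cb hP hc hc1 h1
  exact ⟨y, hy, hy'⟩

/-- The conditional expectation. -/
theorem exists_cond (h : IsSF M Ω) (hP : ∀ x ∈ P, x ∈ M) {x : H →L[ℂ] H} (hx : x ∈ M) :
    ∃ y ∈ P, y Ω = cycProj P Ω (x Ω) := by
  have key : ∀ z ∈ M, star z = z → ∃ y ∈ P, y Ω = cycProj P Ω (z Ω) := by
    intro z hz hs
    have hpos : 0 < ‖z‖ + 1 := by positivity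
    obtain ⟨y, hy, hy'⟩ := exists_cond_sa h hP (smul_mem_vN (((‖z‖ + 1)⁻¹ : ℝ) : ℂ) hz)
      (by rw [star_smul, hs, Complex.star_def, Complex.conj_ofReal]) (by
        rw [norm_smul, Complex.norm_real, Real.norm_of_nonneg (by positivity),
          inv_mul_le_iff₀ hpos]
        linarith)
    refine ⟨((‖z‖ + 1 : ℝ) : ℂ) • y, smul_mem_vN _ hy, ?_⟩
    rw [smul_apply, hy', smul_apply, map_smul, smul_smul, ← Complex.ofReal_mul,
      mul_inv_cancel₀ hpos.ne', Complex.ofReal_one, one_smul]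
  obtain ⟨a, ha, ha'⟩ := key (x + star x) (add_mem hx (star_mem hx))
    (by rw [star_add, star_star, add_comm])
  obtain ⟨b, hb, hb'⟩ := key (Complex.I • (x - star x)) (smul_mem_vN _ (sub_mem hx (star_mem hx)))
    (by rw [star_smul, star_sub, star_star, Complex.star_def, Complex.conj_I, neg_smul,
      ← smul_neg, neg_sub])
  refine ⟨(1 / 2 : ℂ) • (a - Complex.I • b), smul_mem_vN _ (sub_mem ha (smul_mem_vN _ hb)), ?_⟩
  simp only [smul_apply, sub_apply, ha', hb', add_apply, map_add, map_smul, map_sub, smul_smul,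
    Complex.I_mul_I]
  module

theorem isClosed_vN (Q : VonNeumannAlgebra H) : IsClosed (Q.toStarSubalgebra : Set (H →L[ℂ] H)) := by
  have h := Set.isClosed_centralizer (Set.centralizer (Q : Set (H →L[ℂ] H)))
  rwa [Q.centralizer_centralizer] at h

/-- An operator commuting with the unitaries of a von Neumann algebra commutes with it. -/
theorem comm_of_unitary {Q : VonNeumannAlgebra H} {z : H →L[ℂ] H}
    (hz : ∀ u : unitary Q.toStarSubalgebra, z * (u.1 : H →L[ℂ] H) = (u.1 : H →L[ℂ] H) * z) :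
    ∀ x ∈ Q, z * x = x * z := by
  intro x hx
  have := isClosed_vN Q
  obtain ⟨u, c, hu, -⟩ := CStarAlgebra.exists_sum_four_unitary (⟨x, hx⟩ : Q.toStarSubalgebra)
  have h1 : x = ∑ i, c i • ((u i).1 : H →L[ℂ] H) := by simpa using congrArg Subtype.val hu
  rw [h1, Finset.mul_sum, Finset.sum_mul]
  exact Finset.sum_congr rfl fun i _ => by rw [mul_smul_comm, smul_mul_assoc, hz]

/-- Averaging over the unitary group of a factor. -/
theorem dixmier (h : IsSF M Ω) {Q : VonNeumannAlgebra H} (hQ : ∀ x ∈ Q, x ∈ M)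
    (hf : ∀ z ∈ Q, (∀ x ∈ Q, z * x = x * z) → ∃ c : ℂ, z = c • (1 : H →L[ℂ] H))
    {y : H →L[ℂ] H} (hy : y ∈ Q) :
    ∃ ν : ℕ → unitary Q.toStarSubalgebra →₀ ℝ, (∀ n, IsProb (ν n)) ∧
      Tendsto (fun n => avg (ν n) (fun u => (u.1 : H →L[ℂ] H) * y * star (u.1 : H →L[ℂ] H)) Ω)
        atTop (𝓝 (⟪Ω, y Ω⟫_ℂ • Ω)) := by
  have u1 : ∀ u : unitary Q.toStarSubalgebra, star (u.1 : H →L[ℂ] H) * (u.1 : H →L[ℂ] H) = 1 :=
    fun u => congrArg Subtype.val u.2.1
  have u2 : ∀ u : unitary Q.toStarSubalgebra, (u.1 : H →L[ℂ] H) * star (u.1 : H →L[ℂ] H) = 1 :=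
    fun u => congrArg Subtype.val u.2.2
  have um : ∀ u : unitary Q.toStarSubalgebra, (u.1 : H →L[ℂ] H) ∈ Q := fun u => u.1.2
  have un : ∀ u : unitary Q.toStarSubalgebra, ‖(u.1 : H →L[ℂ] H)‖ ≤ 1 := fun u => by
    have a1 : ‖star (u.1 : H →L[ℂ] H) * (u.1 : H →L[ℂ] H)‖ = _ := CStarRing.norm_star_mul_self
    rw [u1] at a1
    have a2 : ‖(1 : H →L[ℂ] H)‖ ≤ 1 := ContinuousLinearMap.norm_id_le
    nlinarith [norm_nonneg (u.1 : H →L[ℂ] H)]
  let w : unitary Q.toStarSubalgebra → H →L[ℂ] H :=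
    fun u => (u.1 : H →L[ℂ] H) * y * star (u.1 : H →L[ℂ] H)
  have wm : ∀ u, w u ∈ Q := fun u => mul_mem (mul_mem (um u) hy) (star_mem (um u))
  have wmul : ∀ g a, w (g * a) = (g.1 : H →L[ℂ] H) * w a * star (g.1 : H →L[ℂ] H) := by
    intro g a
    have : ((g * a).1 : H →L[ℂ] H) = (g.1 : H →L[ℂ] H) * (a.1 : H →L[ℂ] H) := rfl
    simp only [w, this, star_mul, mul_assoc]
  have tr1 : ∀ g : unitary Q.toStarSubalgebra, ∀ X ∈ M,
      vecState Ω ((g.1 : H →L[ℂ] H) * X * star (g.1 : H →L[ℂ] H)) = vecState Ω X := by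
    intro g X hX
    rw [h.tv.isTrace.tracial _ (mul_mem (hQ _ (um g)) hX) _ (star_mem (hQ _ (um g))), ← mul_assoc,
      u1, one_mul]
  have wn : ∀ u, ‖w u‖ ≤ ‖y‖ := fun u => by
    have a1 := norm_mul_le ((u.1 : H →L[ℂ] H) * y) (star (u.1 : H →L[ℂ] H))
    have a2 := norm_mul_le (u.1 : H →L[ℂ] H) y
    rw [norm_star] at a1
    have a3 := mul_le_of_le_one_right (norm_nonneg ((u.1 : H →L[ℂ] H) * y)) (un u)
    have a4 := mul_le_of_le_one_left (norm_nonneg y) (un u)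
    exact a1.trans (a3.trans (a2.trans a4))
  obtain ⟨ν, ε, hν, hε, hcau, hinv⟩ := exists_minimizing (fun u => w u Ω) fun g a b => by
    rw [← vecState_star_mul, ← vecState_star_mul, wmul, wmul,
      ← tr1 g _ (mul_mem (star_mem (hQ _ (wm a))) (hQ _ (wm b)))]
    congr 1
    simp only [star_mul, star_star, mul_assoc]
    rw [← mul_assoc (star (g.1 : H →L[ℂ] H)) (g.1 : H →L[ℂ] H), u1, one_mul]
  have ev : ∀ (μ : unitary Q.toStarSubalgebra →₀ ℝ) (F : unitary Q.toStarSubalgebra → H →L[ℂ] H),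
      avg μ F Ω = avg μ fun u => F u Ω := fun μ F =>
    map_avg (ContinuousLinearMap.apply ℂ H Ω) μ F
  have hcs : CauchySeq fun n => avg (ν n) w Ω := by
    rw [Metric.cauchySeq_iff]
    intro δ hδ
    obtain ⟨N, hN⟩ := eventually_atTop.1 (hε.eventually (gt_mem_nhds (half_pos hδ)))
    refine ⟨N, fun a ha b hb => ?_⟩
    rw [dist_eq_norm, ev, ev]
    linarith [hcau a b, hN a ha, hN b hb]
  obtain ⟨ξ, hξ⟩ := cauchySeq_tendsto_of_complete hcs
  obtain ⟨z, hz, -, hzΩ, hzs⟩ := h.cb hQ (fun n => avg_mem (V := Q.toStarSubalgebra) (ν n) wm)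
    (fun n => (hν n).norm_avg_le wn) hξ
  have hcomm : ∀ u : unitary Q.toStarSubalgebra,
      z * (u.1 : H →L[ℂ] H) = (u.1 : H →L[ℂ] H) * z := by
    intro u
    have a1 : Tendsto (fun n => avg (ν n) fun a => w (u * a) Ω) atTop
        (𝓝 ((u.1 : H →L[ℂ] H) (z (star (u.1 : H →L[ℂ] H) Ω)))) := by
      refine (((u.1 : H →L[ℂ] H).continuous.tendsto _).comp (hzs _)).congr fun n => ?_
      simp only [wmul, Function.comp, mul_apply_eq_comp]
      rw [← map_avg (u.1 : H →L[ℂ] H)]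
      congr 1
      exact map_avg (ContinuousLinearMap.apply ℂ H _) _ w
    have a2 : Tendsto (fun n => avg (ν n) fun a => w (u * a) Ω) atTop (𝓝 ξ) := by
      have b1 : Tendsto (fun n => (avg (ν n) fun a => w (u * a) Ω) - avg (ν n) w Ω) atTop (𝓝 0) := by
        refine squeeze_zero_norm (fun n => ?_) hε
        rw [ev]
        exact hinv n u
      simpa using b1.add hξ
    have a3 := tendsto_nhds_unique a1 a2
    have a4 : (u.1 : H →L[ℂ] H) * z * star (u.1 : H →L[ℂ] H) - z = 0 :=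
      h.tv.sep _ (sub_mem (mul_mem (mul_mem (hQ _ (um u)) (hQ _ hz)) (star_mem (hQ _ (um u))))
        (hQ _ hz)) (by rw [sub_apply, mul_apply_eq_comp, mul_apply_eq_comp, a3, hzΩ, sub_self])
    conv_lhs => rw [← sub_eq_zero.1 a4]
    rw [mul_assoc, u1, mul_one]
  obtain ⟨c, hc⟩ := hf z hz (comm_of_unitary hcomm)
  have hξc : ξ = c • Ω := by rw [← hzΩ, hc]; rfl
  have a1 : Tendsto (fun n => ⟪Ω, avg (ν n) w Ω⟫_ℂ) atTop (𝓝 ⟪Ω, ξ⟫_ℂ) :=
    tendsto_const_nhds.inner hξ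
  have a2 : ∀ n, ⟪Ω, avg (ν n) w Ω⟫_ℂ = ⟪Ω, y Ω⟫_ℂ := fun n => by
    rw [← vecState_apply, map_avg]
    simp only [w, tr1 _ y (hQ y hy)]
    exact (hν n).avg_const _
  simp only [a2] at a1
  have a3 := tendsto_nhds_unique tendsto_const_nhds a1
  rw [hξc, inner_smul_right, h.tv.inner_self, mul_one] at a3
  exact ⟨ν, hν, by rw [a3, ← hξc]; exact hξ⟩

end Pool.Agent.MP_82452b_an.H78
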