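import Pool.Agent.MP_82452b_an.H78.CondExp
import Pool.Agent.MP_82452b_an.H20.Conj

/-!
# An index 2 subfactor gives an outer involution
-/

namespace Pool.Agent.MP_82452b_an.H78

open Filter Topology Pool.Agent.MP_755d6b_an.H98 Pool.Agent.MP_82452b_an.H8
open scoped InnerProductSpace

variable {H : Type} [NormedAddCommGroup H] [InnerProductSpace ℂ H] [CompleteSpace H]

/-- Right multiplications. -/
structure IsR (M : VonNeumannAlgebra H) (Ω : H) (R : (H →L[ℂ] H) → (H →L[ℂ] H)) : Prop where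
  sf : IsSF M Ω
  app : ∀ x ∈ M, ∀ y ∈ M, R x (y Ω) = y (x Ω)
  mem : ∀ x ∈ M, R x ∈ M.commutant
  star : ∀ x ∈ M, star (R x) = R (star x)
  norm : ∀ x ∈ M, ‖R x‖ ≤ ‖x‖
  bicomm : ∀ T : H →L[ℂ] H, (∀ x ∈ M, R x * T = T * R x) → T ∈ M

variable {M P : VonNeumannAlgebra H} {Ω : H} {R : (H →L[ℂ] H) → (H →L[ℂ] H)}

theorem IsR.mul (h : IsR M Ω R) {x y : H →L[ℂ] H} (hx : x ∈ M) (hy : y ∈ M) :
    R (x * y) = R y * R x := h.sf.op_ext fun z hz => by
  rw [h.app _ (mul_mem hx hy) z hz, mul_apply_eq_comp (R y), h.app x hx z hz, ← mul_apply_eq_comp z x,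
    h.app y hy _ (mul_mem hz hx)]
  rfl

theorem IsR.one (h : IsR M Ω R) : R 1 = 1 := h.sf.op_ext fun z hz => by
  rw [h.app _ (one_mem M) z hz]; rfl

theorem IsR.add (h : IsR M Ω R) {x y : H →L[ℂ] H} (hx : x ∈ M) (hy : y ∈ M) :
    R (x + y) = R x + R y := h.sf.op_ext fun z hz => by
  rw [h.app _ (add_mem hx hy) z hz, add_apply, add_apply, h.app x hx z hz, h.app y hy z hz, map_add]

theorem IsR.avg (h : IsR M Ω R) {G : Type*} (ν : G →₀ ℝ) {f : G → H →L[ℂ] H} (hf : ∀ a, f a ∈ M) :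
    R (avg ν f) = avg ν fun a => R (f a) := h.sf.op_ext fun z hz => by
  have e1 : H8.avg ν f Ω = H8.avg ν fun a => f a Ω := map_avg (ContinuousLinearMap.apply ℂ H Ω) ν f
  have e2 : H8.avg ν (fun a => R (f a)) (z Ω) = H8.avg ν fun a => R (f a) (z Ω) :=
    map_avg (ContinuousLinearMap.apply ℂ H (z Ω)) ν _
  rw [h.app _ (avg_mem (V := M.toStarSubalgebra) ν hf) z hz, e1, e2, map_avg]
  simp only [h.app _ (hf _) z hz]

theorem commutant_le (hP : ∀ x ∈ P, x ∈ M) {T : H →L[ℂ] H} (hT : T ∈ M.commutant) :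
    T ∈ P.commutant :=
  VonNeumannAlgebra.mem_commutant_iff.2 fun g hg =>
    VonNeumannAlgebra.mem_commutant_iff.1 hT g (hP g hg)

theorem IsR.cyc_comm (h : IsR M Ω R) (hP : ∀ x ∈ P, x ∈ M) {p : H →L[ℂ] H} (hp : p ∈ P) :
    cycProj P Ω * R p = R p * cycProj P Ω :=
  H78.cyc_comm (fun q hq => ⟨q * p, mul_mem hq hp, h.app p (hP p hp) q (hP q hq)⟩)
    fun q hq => ⟨q * Star.star p, mul_mem hq (star_mem hp), by
      rw [h.star p (hP p hp)]
      exact h.app _ (star_mem (hP p hp)) q (hP q hq)⟩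

theorem IsR.compress (h : IsR M Ω R) (hP : ∀ x ∈ P, x ∈ M) {x y : H →L[ℂ] H} (hx : x ∈ M)
    (hy : y ∈ P) (e : y Ω = cycProj P Ω (x Ω)) :
    cycProj P Ω * R x * cycProj P Ω = R y * cycProj P Ω := cyc_ext fun p hp => by
  rw [mul_apply_eq_comp, h.app x hx p (hP p hp), h.app y (hP y hy) p (hP p hp), e,
    ← mul_apply_eq_comp, cyc_comm_mem hp, mul_apply_eq_comp]

section Trace

variable {N : VonNeumannAlgebra H} {tr : (H →L[ℂ] H) → ℂ}

theorem tr_zero (h : IsTrace N tr) : tr 0 = 0 := by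
  simpa using h.smul 0 0 (zero_mem N)

theorem tr_sub (h : IsTrace N tr) {x y : H →L[ℂ] H} (hx : x ∈ N) (hy : y ∈ N) :
    tr (x - y) = tr x - tr y := by
  have := h.add _ (sub_mem hx hy) _ hy
  rw [sub_add_cancel] at this
  rw [this, add_sub_cancel_right]

theorem tr_avg (h : IsTrace N tr) {G : Type*} (ν : G →₀ ℝ) {f : G → H →L[ℂ] H}
    (hf : ∀ a, f a ∈ N) : tr (avg ν f) = avg ν fun a => tr (f a) := by
  classical
  unfold avg
  induction ν.support using Finset.induction_on with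
  | empty => simpa using tr_zero h
  | insert a s ha ih =>
    rw [Finset.sum_insert ha, Finset.sum_insert ha, h.add _ (smul_mem_vN _ (hf a)) _
      (sum_mem fun b _ => smul_mem_vN _ (hf b)), ih, h.smul _ _ (hf a), smul_eq_mul]

theorem tr_tendsto (h : IsTrace N tr) {T : ℕ → H →L[ℂ] H} {T₀ : H →L[ℂ] H} {C : ℝ}
    (hT : ∀ n, T n ∈ N) (hC : ∀ n, ‖T n‖ ≤ C) (h0 : T₀ ∈ N)
    (hl : ∀ η, Tendsto (fun n => T n η) atTop (𝓝 (T₀ η))) :
    Tendsto (fun n => tr (T n)) atTop (𝓝 (tr T₀)) := by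
  have hC0 : 0 < C + 1 := by linarith [(norm_nonneg _).trans (hC 0)]
  set c : ℂ := (((C + 1)⁻¹ : ℝ) : ℂ) with hc
  have hc0 : c ≠ 0 := Complex.ofReal_ne_zero.2 (inv_ne_zero hC0.ne')
  have h1 := h.normal (map (fun n => c • T n) atTop) (c • T₀) (smul_mem_vN c h0)
    (eventually_map.2 (Eventually.of_forall fun n => ⟨smul_mem_vN c (hT n), by
      rw [norm_smul, hc, Complex.norm_real, Real.norm_of_nonneg (by positivity),
        inv_mul_le_iff₀ hC0]
      linarith [hC n]⟩))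
    fun ξ η => tendsto_map'_iff.2 (tendsto_const_nhds.inner ((hl η).const_smul c))
  have h2 := (tendsto_map'_iff.1 h1).const_mul c⁻¹
  simp only [Function.comp, h.smul c _ (hT _), h.smul c _ h0, inv_mul_cancel_left₀ hc0] at h2
  exact h2

end Trace

/-- The trace of the commutant against right multiplications by a factor. -/
theorem IsR.tr_mul (h : IsR M Ω R) (hP : ∀ x ∈ P, x ∈ M) {tr : (H →L[ℂ] H) → ℂ}
    (ht : IsTrace P.commutant tr) {Q : VonNeumannAlgebra H} (hQ : ∀ x ∈ Q, x ∈ M)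
    (hf : ∀ z ∈ Q, (∀ x ∈ Q, z * x = x * z) → ∃ c : ℂ, z = c • (1 : H →L[ℂ] H))
    {f : H →L[ℂ] H} (hf1 : f ∈ P.commutant) (hf2 : ∀ u ∈ Q, f * R u = R u * f)
    {y : H →L[ℂ] H} (hy : y ∈ Q) : tr (f * R y) = ⟪Ω, y Ω⟫_ℂ * tr f := by
  obtain ⟨ν, hν, hlim⟩ := dixmier h.sf hQ hf hy
  have rm : ∀ x ∈ M, R x ∈ P.commutant := fun x hx => commutant_le hP (h.mem x hx)
  have um : ∀ u : unitary Q.toStarSubalgebra, (u.1 : H →L[ℂ] H) ∈ Q := fun u => u.1.2
  have u1 : ∀ u : unitary Q.toStarSubalgebra,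
      Star.star (u.1 : H →L[ℂ] H) * (u.1 : H →L[ℂ] H) = 1 := fun u => congrArg Subtype.val u.2.1
  set w : unitary Q.toStarSubalgebra → H →L[ℂ] H :=
    fun u => (u.1 : H →L[ℂ] H) * y * Star.star (u.1 : H →L[ℂ] H) with hw
  have wm : ∀ u, w u ∈ M := fun u => hQ _ (mul_mem (mul_mem (um u) hy) (star_mem (um u)))
  have wn : ∀ u, ‖w u‖ ≤ ‖y‖ := fun u => by
    have a0 : ‖Star.star (u.1 : H →L[ℂ] H) * (u.1 : H →L[ℂ] H)‖ = _ := CStarRing.norm_star_mul_self
    rw [u1] at a0
    have a00 : ‖(1 : H →L[ℂ] H)‖ ≤ 1 := ContinuousLinearMap.norm_id_le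
    have un : ‖(u.1 : H →L[ℂ] H)‖ ≤ 1 := by nlinarith [norm_nonneg (u.1 : H →L[ℂ] H)]
    have a1 := norm_mul_le ((u.1 : H →L[ℂ] H) * y) (Star.star (u.1 : H →L[ℂ] H))
    have a2 := norm_mul_le (u.1 : H →L[ℂ] H) y
    rw [norm_star] at a1
    have a3 := mul_le_of_le_one_right (norm_nonneg ((u.1 : H →L[ℂ] H) * y)) un
    have a4 := mul_le_of_le_one_left (norm_nonneg y) un
    exact a1.trans (a3.trans (a2.trans a4))
  have am : ∀ n, H8.avg (ν n) w ∈ M := fun n => avg_mem (V := M.toStarSubalgebra) (ν n) wm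
  have an : ∀ n, ‖R (H8.avg (ν n) w)‖ ≤ ‖y‖ := fun n =>
    (h.norm _ (am n)).trans ((hν n).norm_avg_le wn)
  have h1 : ∀ u, tr (f * R (w u)) = tr (f * R y) := fun u => by
    have a1 := hQ _ (um u)
    have a2 := hQ _ hy
    have a3 := star_mem a1
    simp only [hw]
    rw [h.mul (mul_mem a1 a2) a3, h.mul a1 a2, ← mul_assoc, hf2 _ (star_mem (um u)), mul_assoc,
      ht.tracial _ (rm _ a3) _ (mul_mem hf1 (mul_mem (rm _ a2) (rm _ a1))), mul_assoc, mul_assoc,
      ← h.mul a3 a1, u1, h.one, mul_one]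
  have h2 : ∀ n, tr (f * R (H8.avg (ν n) w)) = tr (f * R y) := fun n => by
    have a1 : f * H8.avg (ν n) (fun a => R (w a)) = H8.avg (ν n) fun a => f * R (w a) :=
      map_avg (LinearMap.mulLeft ℂ f) _ _
    rw [h.avg _ wm, a1, tr_avg ht _ fun a => mul_mem hf1 (rm _ (wm a))]
    simp only [h1]
    exact (hν n).avg_const _
  have h3 : ∀ η, Tendsto (fun n => R (H8.avg (ν n) w) η) atTop (𝓝 (⟪Ω, y Ω⟫_ℂ • η)) := by
    have a1 : Equicontinuous fun n η => R (H8.avg (ν n) w) η :=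
      (LipschitzWith.uniformEquicontinuous _ ‖y‖₊ fun n =>
        (R (H8.avg (ν n) w)).lipschitz.weaken (an n)).equicontinuous
    refine h.sf.induction (a1.isClosed_setOfPred_tendsto (continuous_const_smul _)) fun z hz => ?_
    simp only [h.app _ (am _) z hz]
    rw [← map_smul]
    exact (z.continuous.tendsto _).comp hlim
  have h4 := tr_tendsto ht (T := fun n => f * R (H8.avg (ν n) w)) (T₀ := ⟪Ω, y Ω⟫_ℂ • f)
    (C := ‖f‖ * ‖y‖) (fun n => mul_mem hf1 (rm _ (am n)))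
    (fun n => (norm_mul_le _ _).trans (mul_le_mul_of_nonneg_left (an n) (norm_nonneg _)))
    (smul_mem_vN _ hf1) fun η => by
      rw [smul_apply, ← map_smul]
      exact (f.continuous.tendsto _).comp (h3 η)
  simp only [h2] at h4
  rw [tendsto_nhds_unique tendsto_const_nhds h4, ht.smul _ _ hf1]

/-- Right multiplication by an element orthogonal to the subfactor is odd. -/
theorem IsR.odd (h : IsR M Ω R) (hM : IsStdII1 M Ω) (hP : ∀ x ∈ P, x ∈ M)
    (hf : ∀ z ∈ P, (∀ x ∈ P, z * x = x * z) → ∃ c : ℂ, z = c • (1 : H →L[ℂ] H))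
    {tr : (H →L[ℂ] H) → ℂ} (ht : IsTrace P.commutant tr) (he : 2 * tr (cycProj P Ω) = 1)
    {x : H →L[ℂ] H} (hx : x ∈ M) (h0 : cycProj P Ω (x Ω) = 0) :
    cycProj P Ω * R x * cycProj P Ω = 0 ∧ R x = cycProj P Ω * R x + R x * cycProj P Ω := by
  have rm : ∀ x ∈ M, R x ∈ P.commutant := fun x hx => commutant_le hP (h.mem x hx)
  have em : cycProj P Ω ∈ P.commutant := cyc_mem_commutant
  have t1 : ∀ y ∈ M, tr (R y) = ⟪Ω, y Ω⟫_ℂ := fun y hy => by
    have := h.tr_mul hP ht (fun _ hx => hx) hM.ii1.factor (one_mem _) (fun u _ => by simp) hy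
    rwa [one_mul, ht.unital, mul_one] at this
  have t2 : ∀ y ∈ M, 2 * tr (cycProj P Ω * R y) = ⟪Ω, y Ω⟫_ℂ := fun y hy => by
    obtain ⟨p, hp, hp'⟩ := exists_cond h.sf hP hy
    have a1 := h.tr_mul hP ht hP hf em (fun u hu => h.cyc_comm hP hu) hp
    have a2 : tr (cycProj P Ω * R y) = tr (cycProj P Ω * R p) := by
      conv_lhs => rw [← cyc_mul, mul_assoc]
      rw [ht.tracial _ em _ (mul_mem em (rm y hy)), h.compress hP hy hp hp',
        ht.tracial _ (rm p (hP p hp)) _ em]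
    have a3 : ⟪Ω, p Ω⟫_ℂ = ⟪Ω, y Ω⟫_ℂ := by
      rw [hp', ← inner_star_apply, cyc_star, cyc_one]
    rw [a2, a1, a3, mul_left_comm, he, mul_one]
  have z1 : cycProj P Ω * R x * cycProj P Ω = 0 := by
    rw [← zero_mul (cycProj P Ω)]
    refine cyc_ext fun p hp => ?_
    rw [mul_apply_eq_comp, h.app x hx p (hP p hp), ← mul_apply_eq_comp, cyc_comm_mem hp,
      mul_apply_eq_comp, h0, map_zero, zero_apply]
  refine ⟨z1, ?_⟩
  have hs := star_mem hx
  set e := cycProj P Ω with he'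
  have ee : e * e = e := cyc_mul
  have es : Star.star e = e := cyc_star
  have fm : 1 - e ∈ P.commutant := sub_mem (one_mem _) em
  have ff : (1 - e) * (1 - e) = 1 - e := by rw [mul_sub, sub_mul, sub_mul, ee]; simp
  have a := rm x hx
  have b := rm _ hs
  have hA : (1 - e) * R x * (1 - e) = 0 := by
    refine ht.faithful _ (mul_mem (mul_mem fm a) fm) ?_
    have c1 : Star.star ((1 - e) * R x * (1 - e)) * ((1 - e) * R x * (1 - e)) =
        ((1 - e) * R (Star.star x) * (1 - e) * R x) * (1 - e) := by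
      rw [star_mul, star_mul, star_sub, star_one, es, h.star x hx]
      simp only [mul_assoc]
      rw [← mul_assoc (1 - e) (1 - e), ff]
    have c2 : (1 - e) * ((1 - e) * R (Star.star x) * (1 - e) * R x) =
        R (Star.star x) * R x - e * (R (Star.star x) * R x) - R (Star.star x) * (e * R x - e * R x * e)
          + (e * (R (Star.star x) * e * R x) - R (Star.star x) * (e * R x * e)) := by
      simp only [← mul_assoc]
      rw [ff]
      noncomm_ring
    have c3 : tr (e * (R (Star.star x) * e * R x)) = 0 := by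
      rw [ht.tracial _ em _ (mul_mem (mul_mem b em) a), mul_assoc, mul_assoc, ← mul_assoc e, z1,
        mul_zero, tr_zero ht]
    have c4 : 2 * tr (R (Star.star x) * (e * R x)) = ⟪Ω, (x * Star.star x) Ω⟫_ℂ := by
      rw [ht.tracial _ b _ (mul_mem em a), mul_assoc, ← h.mul hs hx, t2 _ (mul_mem hs hx)]
      exact h.sf.tv.tr _ hs _ hx
    have c5 := t2 _ (mul_mem hx hs)
    have c6 := t1 _ (mul_mem hx hs)
    rw [h.mul hx hs] at c5 c6
    rw [c1, ht.tracial _ (mul_mem (mul_mem (mul_mem fm b) fm) a) _ fm, c2, z1, mul_zero, sub_zero,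
      sub_zero, ht.add _ (sub_mem (sub_mem (mul_mem b a) (mul_mem em (mul_mem b a)))
        (mul_mem b (mul_mem em a))) _ (mul_mem em (mul_mem (mul_mem b em) a)), c3,
      tr_sub ht (sub_mem (mul_mem b a) (mul_mem em (mul_mem b a))) (mul_mem b (mul_mem em a)),
      tr_sub ht (mul_mem b a) (mul_mem em (mul_mem b a))]
    linear_combination c6 - (1 / 2) * c5 - (1 / 2) * c4
  have : (1 - e) * R x * (1 - e) = R x - (e * R x + R x * e) + e * R x * e := by noncomm_ring
  rw [hA, z1, add_zero] at this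
  exact sub_eq_zero.1 this.symm

end Pool.Agent.MP_82452b_an.H78

namespace Pool.Agent.MP_82452b_an.H8

open Pool.Agent.MP_755d6b_an.H98 Pool.Agent.MP_82452b_an.H78
open scoped InnerProductSpace

variable {H : Type} [NormedAddCommGroup H] [InnerProductSpace ℂ H] [CompleteSpace H]

/-- An index 2 subfactor gives an outer involution. -/
theorem goldman {M P : VonNeumannAlgebra H} {Ω : H} (hM : IsStdII1 M Ω) (hP : IndexTwo P M Ω) :
    ∃ S : H →L[ℂ] H, S * S = 1 ∧ star S = S ∧ S Ω = Ω ∧ (∀ y ∈ M, S * y * S ∈ M) ∧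
      ¬ ∃ w ∈ M, star w * w = 1 ∧ w * star w = 1 ∧ ∀ y ∈ M, S * y * S = w * y * star w := by
  obtain ⟨R, r1, r2, r3, r4, r5⟩ := hM.isSF.exists_R
  have h : IsR M Ω R := ⟨hM.isSF, r1, r2, r3, r4, r5⟩
  obtain ⟨tr, ht, he⟩ := hP.coupling
  rw [cyc_one, hM.isSF.tv.inner_self] at he
  set e := cycProj P Ω with he'
  have ee : e * e = e := cyc_mul
  have hS : (e + e - 1) * (e + e - 1) = 1 := by
    have : (e + e - 1) * (e + e - 1) = e * e + e * e + e * e + e * e - (e + e + e + e) + 1 := by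
      noncomm_ring
    rw [this, ee, sub_self, zero_add]
  have hfix : ∀ T : H →L[ℂ] H, e * T = T * e → (e + e - 1) * T * (e + e - 1) = T := fun T hT => by
    have : (e + e - 1) * T = T * (e + e - 1) := by
      rw [sub_mul, add_mul, mul_sub, mul_add, hT, one_mul, mul_one]
    rw [this, mul_assoc, hS, mul_one]
  have hΩ : (e + e - 1) Ω = Ω := by
    have : e Ω = Ω := cyc_one
    rw [sub_apply, add_apply, this, one_apply_eq_self, add_sub_cancel_right]
  refine ⟨e + e - 1, hS, by rw [star_sub, star_add, star_one, he', cyc_star], hΩ,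
    fun y hy => h.bicomm _ fun x hx => ?_, ?_⟩
  · obtain ⟨p, hp, hp'⟩ := exists_cond h.sf hP.le hx
    have hxp := sub_mem hx (hP.le p hp)
    obtain ⟨o1, o2⟩ := h.odd hM hP.le hP.factor ht he.symm hxp
      (by rw [sub_apply, map_sub, cyc_apply hp, hp', sub_self])
    rw [← he'] at o1 o2
    have a1 : (e + e - 1) * R (x - p) * (e + e - 1) = -R (x - p) := by
      have : (e + e - 1) * R (x - p) * (e + e - 1) = e * R (x - p) * e + e * R (x - p) * e +
          e * R (x - p) * e + e * R (x - p) * e - (e * R (x - p) + R (x - p) * e) -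
          (e * R (x - p) + R (x - p) * e) + R (x - p) := by noncomm_ring
      rw [this, o1, ← o2]
      abel
    have a2 : R x = R p + R (x - p) := by
      rw [← h.add (hP.le p hp) hxp, add_sub_cancel]
    have a3 : (e + e - 1) * R x * (e + e - 1) ∈ M.commutant := by
      rw [a2, mul_add, add_mul, a1, hfix _ (h.cyc_comm hP.le hp)]
      exact add_mem (r2 p (hP.le p hp)) (neg_mem (r2 _ hxp))
    have a4 := VonNeumannAlgebra.mem_commutant_iff.1 a3 y hy
    generalize e + e - 1 = S at hS a4 ⊢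
    calc R x * (S * y * S) = (S * S) * R x * (S * y * S) := by rw [hS, one_mul]
      _ = S * (S * R x * S * y) * S := by simp only [mul_assoc]
      _ = S * y * S * R x * (S * S) := by rw [← a4]; simp only [mul_assoc]
      _ = S * y * S * R x := by rw [hS, mul_one]
  · rintro ⟨w, hw, w1, w2, hw'⟩
    have a1 : (e + e - 1) (w Ω) = w Ω := by
      have := congrArg (fun T : H →L[ℂ] H => T Ω) (hw' w hw)
      simp only [mul_assoc, w2, mul_one] at this
      rwa [mul_apply_eq_comp, mul_apply_eq_comp, hΩ] at this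
    have half : ∀ ξ : H, (e + e - 1) ξ = ξ → e ξ = ξ := fun ξ hξ => by
      rw [sub_apply, add_apply, one_apply_eq_self, sub_eq_iff_eq_add, ← two_smul ℂ,
        ← two_smul ℂ] at hξ
      exact smul_right_injective H two_ne_zero hξ
    obtain ⟨p, hp, hp'⟩ := exists_cond h.sf hP.le hw
    have a2 : w = p := sub_eq_zero.1 (h.sf.tv.sep _ (sub_mem hw (hP.le p hp))
      (by rw [sub_apply, hp', ← he', half _ a1, sub_self]))
    obtain ⟨c, hc⟩ := hP.factor w (a2 ▸ hp) fun y hy => by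
      have b1 := hw' y (hP.le y hy)
      rw [hfix y (cyc_comm_mem hy)] at b1
      conv_rhs => rw [b1]
      rw [mul_assoc, w1, mul_one]
    have a3 : e = 1 := h.sf.op_ext fun y hy => by
      refine half _ ?_
      have b1 : w * y = y * w := by rw [hc]; simp
      have := congrArg (fun T : H →L[ℂ] H => T Ω) (hw' y hy)
      simp only [b1, mul_assoc, w2, mul_one] at this
      rwa [mul_apply_eq_comp, mul_apply_eq_comp, hΩ] at this
    rw [a3, ht.unital] at he
    norm_num at he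

end Pool.Agent.MP_82452b_an.H8
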